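import Mathlib

/-!
# Maximal independent sets of Kneser graphs: definitions
-/

namespace Pool.Agent.H383Kneser

/-- `F` is a maximal independent set of the Kneser graph `K(n,k)`: a family of `k`-subsets of `Fin n`,
any two different members of which intersect, and such that every other `k`-subset is disjoint from
some member (so nothing can be added). -/
def IsMaxIndep (n k : ℕ) (F : Finset (Finset (Fin n))) : Prop :=
  (∀ A ∈ F, A.card = k) ∧ (∀ A ∈ F, ∀ B ∈ F, A ≠ B → ¬ Disjoint A B) ∧
    (∀ S : Finset (Fin n), S.card = k → S ∉ F → ∃ A ∈ F, Disjoint S A)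

/-- `i(n,k)`: the least number of members of a maximal independent set of `K(n,k)`. -/
noncomputable def iMin (n k : ℕ) : ℕ :=
  sInf {N : ℕ | ∃ F : Finset (Finset (Fin n)), IsMaxIndep n k F ∧ F.card = N}

end Pool.Agent.H383Kneser
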