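import Mathlib

namespace Pool.Agent.H383Kneser
section
/-- covering bound: a family of k-sets such that every k-set outside is disjoint from a member -/
theorem cover_bound (n k : ℕ) (F : Finset (Finset (Fin n))) (hF : ∀ A ∈ F, A.card = k)
    (hdom : ∀ S : Finset (Fin n), S.card = k → S ∉ F → ∃ A ∈ F, Disjoint S A) :
    n.choose k ≤ F.card * ((n - k).choose k + 1) := by
  classical
  have hsub : (Finset.powersetCard k (Finset.univ : Finset (Fin n))) ⊆
      F.biUnion (fun A => insert A (Finset.powersetCard k Aᶜ)) := by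
    intro S hS
    have hSc : S.card = k := (Finset.mem_powersetCard.1 hS).2
    rw [Finset.mem_biUnion]
    by_cases hSF : S ∈ F
    · exact ⟨S, hSF, Finset.mem_insert_self _ _⟩
    · obtain ⟨A, hA, hd⟩ := hdom S hSc hSF
      refine ⟨A, hA, Finset.mem_insert_of_mem (Finset.mem_powersetCard.2 ⟨?_, hSc⟩)⟩
      intro x hx
      rw [Finset.mem_compl]
      exact fun hxA => (Finset.disjoint_left.1 hd) hx hxA
  have h1 : n.choose k = (Finset.powersetCard k (Finset.univ : Finset (Fin n))).card := by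
    rw [Finset.card_powersetCard, Finset.card_univ, Fintype.card_fin]
  rw [h1]
  refine (Finset.card_le_card hsub).trans ?_
  refine Finset.card_biUnion_le_card_mul _ _ _ ?_
  intro A hA
  refine (Finset.card_insert_le _ _).trans ?_
  rw [Finset.card_powersetCard, Finset.card_compl, Fintype.card_fin, hF A hA]
end
end Pool.Agent.H383Kneser

namespace Pool.Agent.H383Kneser
section
theorem exp_choose_ratio (n k : ℕ) (hk : 1 ≤ k) (h : 2 * k ≤ n) :
    Real.exp ((k : ℝ) ^ 2 / n) * ((n - k).choose k : ℝ) ≤ (n.choose k : ℝ) := by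
  have hk0 : (0 : ℝ) < k := by exact_mod_cast hk
  have hn0 : (0 : ℝ) < n := by
    have : 0 < n := by omega
    exact_mod_cast this
  have h2 : 2 * (k : ℝ) ≤ n := by exact_mod_cast h
  have hnk : (0 : ℝ) < n - k := by linarith
  -- exp (k/n) ≤ n/(n-k)
  have h3 : Real.exp ((k : ℝ) / n) * (n - k) ≤ n := by
    have h4 := Real.add_one_le_exp (-((k : ℝ) / n))
    rw [Real.exp_neg] at h4
    have h5 : 0 < Real.exp ((k : ℝ) / n) := Real.exp_pos _
    have h6 : (1 - (k : ℝ) / n) * Real.exp ((k : ℝ) / n) ≤ 1 := by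
      calc (1 - (k : ℝ) / n) * Real.exp ((k : ℝ) / n) ≤
            (Real.exp ((k : ℝ) / n))⁻¹ * Real.exp ((k : ℝ) / n) :=
            mul_le_mul_of_nonneg_right (by linarith) h5.le
        _ = 1 := inv_mul_cancel₀ h5.ne'
    have h7 : Real.exp ((k : ℝ) / n) * (n - k) =
        n * ((1 - (k : ℝ) / n) * Real.exp ((k : ℝ) / n)) := by
      field_simp
    rw [h7]
    nlinarith
  -- descending factorials
  have hd : ∀ m : ℕ, (m.choose k : ℝ) = (m.descFactorial k : ℝ) / (k.factorial : ℝ) := by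
    intro m
    rw [eq_div_iff (by positivity)]
    have h8 := Nat.descFactorial_eq_factorial_mul_choose m k
    rw [h8]
    push_cast
    ring
  rw [hd, hd, ← mul_div_assoc]
  apply div_le_div_of_nonneg_right _ (by positivity)
  rw [Nat.descFactorial_eq_prod_range, Nat.descFactorial_eq_prod_range]
  have hexp : Real.exp ((k : ℝ) ^ 2 / n) = ∏ i ∈ Finset.range k, Real.exp ((k : ℝ) / n) := by
    rw [Finset.prod_const, Finset.card_range, ← Real.exp_nat_mul]
    congr 1
    ring
  rw [hexp]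
  push_cast
  rw [← Finset.prod_mul_distrib]
  refine Finset.prod_le_prod (fun i _ => by positivity) fun i hi => ?_
  have hik : i < k := Finset.mem_range.1 hi
  have e1 : ((n - k - i : ℕ) : ℝ) = (n : ℝ) - k - i := by
    rw [Nat.cast_sub (by omega), Nat.cast_sub (by omega)]
  have e2 : ((n - i : ℕ) : ℝ) = (n : ℝ) - i := by
    rw [Nat.cast_sub (by omega)]
  rw [e1, e2]
  have hik' : (i : ℝ) < k := by exact_mod_cast hik
  have hi0 : (0 : ℝ) ≤ i := Nat.cast_nonneg i
  have h9 : 1 ≤ Real.exp ((k : ℝ) / n) := Real.one_le_exp (by positivity)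
  nlinarith
end
end Pool.Agent.H383Kneser

namespace Pool.Agent.H383Kneser
section
/-- Extension: an intersecting family 𝒜 of sets of size at most k extends to a maximal intersecting family
of k-sets all of whose members meet every member of 𝒜. -/
theorem exists_max_family (n k : ℕ) (hk : 1 ≤ k) (h : 2 * k ≤ n) (𝒜 : Set (Finset (Fin n)))
    (hcard : ∀ A ∈ 𝒜, A.card ≤ k) (hint : ∀ A ∈ 𝒜, ∀ B ∈ 𝒜, ¬ Disjoint A B) :
    ∃ M : Finset (Finset (Fin n)), (∀ A ∈ M, A.card = k) ∧ (∀ A ∈ M, ∀ B ∈ M, ¬ Disjoint A B) ∧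
      (∀ S : Finset (Fin n), S.card = k → S ∉ M → ∃ A ∈ M, Disjoint S A) ∧
      (∀ S ∈ M, ∀ A ∈ 𝒜, ¬ Disjoint S A) := by
  classical
  obtain ⟨M, hM, hmax⟩ := Finset.exists_max_image
    ((Finset.univ : Finset (Finset (Finset (Fin n)))).filter fun M =>
      (∀ S : Finset (Fin n), S.card = k → (∃ A ∈ 𝒜, A ⊆ S) → S ∈ M) ∧
      (∀ A ∈ M, A.card = k) ∧ ∀ A ∈ M, ∀ B ∈ M, ¬ Disjoint A B) Finset.card (by
      refine ⟨Finset.univ.filter fun S => S.card = k ∧ ∃ A ∈ 𝒜, A ⊆ S, ?_⟩
      rw [Finset.mem_filter]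
      refine ⟨Finset.mem_univ _, ?_, ?_, ?_⟩
      · intro S hS hA
        rw [Finset.mem_filter]
        exact ⟨Finset.mem_univ _, hS, hA⟩
      · intro S hS
        exact (Finset.mem_filter.mp hS).2.1
      · intro S hS T hT hd
        obtain ⟨A, hA, hAS⟩ := (Finset.mem_filter.mp hS).2.2
        obtain ⟨B, hB, hBT⟩ := (Finset.mem_filter.mp hT).2.2
        exact hint A hA B hB (hd.mono hAS hBT))
  rw [Finset.mem_filter] at hM
  obtain ⟨-, hG, hc, hI⟩ := hM
  refine ⟨M, hc, hI, ?_, ?_⟩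
  · intro S hS hSM
    by_contra hcon
    push Not at hcon
    have h1 := hmax (insert S M) (by
      rw [Finset.mem_filter]
      refine ⟨Finset.mem_univ _, ?_, ?_, ?_⟩
      · intro T hT hA
        exact Finset.mem_insert_of_mem (hG T hT hA)
      · intro T hT
        rcases Finset.mem_insert.mp hT with h2 | h2
        · rw [h2]; exact hS
        · exact hc T h2
      · intro A hA B hB
        rcases Finset.mem_insert.mp hA with h2 | h2
        · rcases Finset.mem_insert.mp hB with h3 | h3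
          · rw [h2, h3]
            intro hd
            rw [Finset.disjoint_self_iff_empty] at hd
            rw [hd, Finset.card_empty] at hS
            omega
          · rw [h2]
            exact hcon B h3
        · rcases Finset.mem_insert.mp hB with h3 | h3
          · rw [h3]
            exact fun hd => hcon A h2 hd.symm
          · exact hI A h2 B h3)
    rw [Finset.card_insert_of_notMem hSM] at h1
    omega
  · intro S hS A hA hd
    have h1 : A ⊆ Sᶜ := by
      intro x hx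
      rw [Finset.mem_compl]
      exact fun hxS => (Finset.disjoint_left.mp hd) hxS hx
    have h2 : Sᶜ.card = n - k := by
      rw [Finset.card_compl, Fintype.card_fin, hc S hS]
    obtain ⟨B, hAB, hBS, hBk⟩ := Finset.exists_subsuperset_card_eq h1 (hcard A hA)
      (by omega : k ≤ Sᶜ.card)
    have h3 := hG B hBk ⟨A, hA, hAB⟩
    apply hI S hS B h3
    rw [Finset.disjoint_left]
    intro x hx hxB
    have := hBS hxB
    rw [Finset.mem_compl] at this
    exact this hx
end
end Pool.Agent.H383Kneser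

namespace Pool.Agent.H383Kneser
section
open Configuration in
theorem plane_transport899 {P L : Type*} [Membership P L] [ProjectivePlane P L] [Fintype P]
    [Fintype L] (q : ℕ) (hP : Fintype.card P = q ^ 2 + q + 1) :
    ∃ L : Finset (Finset (Fin (q ^ 2 + q + 1))), L.card = q ^ 2 + q + 1 ∧ (∀ l ∈ L, l.card = q + 1) ∧
      (∀ l ∈ L, ∀ l' ∈ L, ¬ Disjoint l l') ∧
      (∀ x y : Fin (q ^ 2 + q + 1), x ≠ y → ∃! l, l ∈ L ∧ x ∈ l ∧ y ∈ l) := by
  classical
  have hord : ProjectivePlane.order P L = q := by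
    have h1 := ProjectivePlane.card_points P L
    rw [hP] at h1
    rcases lt_trichotomy (ProjectivePlane.order P L) q with h2 | h2 | h2
    · nlinarith
    · exact h2
    · nlinarith
  have hq1 : 1 < q := by
    have := ProjectivePlane.one_lt_order P L
    rwa [hord] at this
  let e : P ≃ Fin (q ^ 2 + q + 1) := Fintype.equivFinOfCardEq hP
  let line : L → Finset (Fin (q ^ 2 + q + 1)) := fun w => Finset.univ.filter fun x => e.symm x ∈ w
  have hmem : ∀ w x, x ∈ line w ↔ e.symm x ∈ w := fun w x => by simp [line]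
  have hcard : ∀ w, (line w).card = q + 1 := by
    intro w
    have h1 := ProjectivePlane.pointCount_eq P w
    rw [hord, pointCount, Nat.card_eq_fintype_card] at h1
    rw [← h1, ← Fintype.card_subtype]
    exact Fintype.card_congr (e.symm.subtypeEquiv fun _ => Iff.rfl)
  have huniq : ∀ w w' x y, x ≠ y → x ∈ line w → y ∈ line w → x ∈ line w' → y ∈ line w' →
      w = w' := by
    intro w w' x y hxy h1 h2 h3 h4
    rw [hmem] at h1 h2 h3 h4
    rcases Nondegenerate.eq_or_eq h1 h2 h3 h4 with h5 | h5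
    · exact absurd (e.symm.injective h5) hxy
    · exact h5
  have hinj : Function.Injective line := by
    intro w w' h
    obtain ⟨x, hx, y, hy, hxy⟩ := Finset.one_lt_card.1
      (show 1 < (line w).card by rw [hcard]; omega)
    exact huniq w w' x y hxy hx hy (h ▸ hx) (h ▸ hy)
  refine ⟨Finset.univ.image line, ?_, ?_, ?_, ?_⟩
  · rw [Finset.card_image_of_injective _ hinj, Finset.card_univ,
      ProjectivePlane.card_lines P L, hord]
  · intro l hl
    obtain ⟨w, -, rfl⟩ := Finset.mem_image.1 hl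
    exact hcard w
  · intro l hl l' hl'
    obtain ⟨w, -, rfl⟩ := Finset.mem_image.1 hl
    obtain ⟨w', -, rfl⟩ := Finset.mem_image.1 hl'
    rw [Finset.not_disjoint_iff]
    by_cases h : w = w'
    · subst h
      have : 0 < (line w).card := by rw [hcard]; omega
      obtain ⟨x, hx⟩ := Finset.card_pos.1 this
      exact ⟨x, hx, hx⟩
    · obtain ⟨h1, h2⟩ := HasPoints.mkPoint_ax (P := P) h
      refine ⟨e (HasPoints.mkPoint (P := P) h), ?_, ?_⟩
      · rw [hmem, e.symm_apply_apply]; exact h1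
      · rw [hmem, e.symm_apply_apply]; exact h2
  · intro x y hxy
    have hne : e.symm x ≠ e.symm y := fun h => hxy (e.symm.injective h)
    obtain ⟨h1, h2⟩ := HasLines.mkLine_ax (L := L) hne
    refine ⟨line (HasLines.mkLine (L := L) hne), ⟨Finset.mem_image_of_mem _ (Finset.mem_univ _),
      (hmem _ _).2 h1, (hmem _ _).2 h2⟩, ?_⟩
    rintro l ⟨hl, hx, hy⟩
    obtain ⟨w, -, rfl⟩ := Finset.mem_image.1 hl
    rw [huniq w _ x y hxy hx hy ((hmem _ _).2 h1) ((hmem _ _).2 h2)]

open Configuration Configuration.ofField in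
/-- projective plane of prime order q as a family of lines on Fin (q^2+q+1) -/
theorem exists_plane (q : ℕ) (hq : q.Prime) :
    ∃ L : Finset (Finset (Fin (q ^ 2 + q + 1))), L.card = q ^ 2 + q + 1 ∧ (∀ l ∈ L, l.card = q + 1) ∧
      (∀ l ∈ L, ∀ l' ∈ L, ¬ Disjoint l l') ∧
      (∀ x y : Fin (q ^ 2 + q + 1), x ≠ y → ∃! l, l ∈ L ∧ x ∈ l ∧ y ∈ l) := by
  classical
  haveI : Fact q.Prime := ⟨hq⟩
  haveI : Finite (Projectivization (ZMod q) (Fin 3 → ZMod q)) := inferInstance
  letI : Fintype (Projectivization (ZMod q) (Fin 3 → ZMod q)) := Fintype.ofFinite _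
  refine plane_transport899 (P := Projectivization (ZMod q) (Fin 3 → ZMod q))
    (L := Projectivization (ZMod q) (Fin 3 → ZMod q)) q ?_
  rw [← Nat.card_eq_fintype_card, Projectivization.card_of_finrank (ZMod q) (Fin 3 → ZMod q)
    (n := 3) (by simp), Nat.card_zmod]
  simp [Finset.sum_range_succ]
  ring
end
end Pool.Agent.H383Kneser

namespace Pool.Agent.H383Kneser
section
theorem blocking_aux (q v : ℕ) (hq : 1 ≤ q) (L : Finset (Finset (Fin v)))
    (hline : ∀ l ∈ L, l.card = q + 1)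
    (huniq : ∀ x y : Fin v, x ≠ y → ∃! l, l ∈ L ∧ x ∈ l ∧ y ∈ l)
    (hv2 : v = q ^ 2 + q + 1) (p : Fin v) : (L.filter (p ∈ ·)).card = q + 1 := by
  classical
  have h1 : (Finset.univ.erase p : Finset (Fin v)) = (L.filter (p ∈ ·)).biUnion (fun l => l.erase p) := by
    ext y
    simp only [Finset.mem_erase, Finset.mem_univ, and_true, Finset.mem_biUnion, Finset.mem_filter]
    constructor
    · intro hy
      obtain ⟨l, ⟨hl, hp, hyl⟩, -⟩ := huniq p y (Ne.symm hy)
      exact ⟨l, ⟨hl, hp⟩, hy, hyl⟩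
    · rintro ⟨l, -, hy, -⟩
      exact hy
  have h2 : ((L.filter (p ∈ ·)).biUnion (fun l => l.erase p)).card =
      ∑ l ∈ L.filter (p ∈ ·), (l.erase p).card := by
    apply Finset.card_biUnion
    intro l hl l' hl' hne
    rw [Finset.mem_coe, Finset.mem_filter] at hl hl'
    rw [Function.onFun, Finset.disjoint_left]
    intro y hy hy'
    rw [Finset.mem_erase] at hy hy'
    obtain ⟨l0, -, hu⟩ := huniq p y (Ne.symm hy.1)
    exact hne ((hu l ⟨hl.1, hl.2, hy.2⟩).trans (hu l' ⟨hl'.1, hl'.2, hy'.2⟩).symm)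
  have h3 : ∑ l ∈ L.filter (p ∈ ·), (l.erase p).card = ∑ l ∈ L.filter (p ∈ ·), q := by
    apply Finset.sum_congr rfl
    intro l hl
    rw [Finset.mem_filter] at hl
    rw [Finset.card_erase_of_mem hl.2, hline l hl.1, Nat.add_sub_cancel]
  rw [← h1, h3, Finset.card_erase_of_mem (Finset.mem_univ p), Finset.card_univ, Fintype.card_fin,
    Finset.sum_const, smul_eq_mul] at h2
  have h4 : (L.filter (p ∈ ·)).card * q = (q + 1) * q := by
    rw [← h2, hv2]
    have : q ^ 2 + q + 1 - 1 = (q + 1) * q := by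
      rw [Nat.add_sub_cancel]; ring
    exact this
  exact Nat.eq_of_mul_eq_mul_right (by omega) h4

theorem blocking_sum (v : ℕ) (L : Finset (Finset (Fin v)))
    (huniq : ∀ x y : Fin v, x ≠ y → ∃! l, l ∈ L ∧ x ∈ l ∧ y ∈ l)
    (B : Finset (Fin v)) (p : Fin v) (hp : p ∉ B) :
    ∑ l ∈ L.filter (p ∈ ·), (B ∩ l).card ≤ B.card := by
  classical
  rw [← Finset.card_biUnion]
  · apply Finset.card_le_card
    intro y hy
    rw [Finset.mem_biUnion] at hy
    obtain ⟨l, -, hy⟩ := hy
    exact (Finset.mem_inter.mp hy).1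
  · intro l hl l' hl' hne
    rw [Finset.mem_coe, Finset.mem_filter] at hl hl'
    rw [Function.onFun, Finset.disjoint_left]
    intro y hy hy'
    rw [Finset.mem_inter] at hy hy'
    have hyp : p ≠ y := fun h => hp (h ▸ hy.1)
    obtain ⟨l0, -, hu⟩ := huniq p y hyp
    exact hne ((hu l ⟨hl.1, hl.2, hy.2⟩).trans (hu l' ⟨hl'.1, hl'.2, hy'.2⟩).symm)

/-- blocking sets of a projective plane have at least q+1 points, with equality only for lines -/
theorem blocking_bound (q v : ℕ) (hq : 1 ≤ q) (hv : q + 2 ≤ v) (L : Finset (Finset (Fin v)))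
    (hline : ∀ l ∈ L, l.card = q + 1)
    (hmeet : ∀ l ∈ L, ∀ l' ∈ L, ¬ Disjoint l l')
    (huniq : ∀ x y : Fin v, x ≠ y → ∃! l, l ∈ L ∧ x ∈ l ∧ y ∈ l)
    (hv2 : v = q ^ 2 + q + 1) (B : Finset (Fin v)) (hB : ∀ l ∈ L, ¬ Disjoint B l) :
    q + 1 ≤ B.card ∧ (B.card = q + 1 → B ∈ L) := by
  classical
  have hone : ∀ l ∈ L, 1 ≤ (B ∩ l).card := by
    intro l hl
    rw [Nat.one_le_iff_ne_zero, Ne, Finset.card_eq_zero, ← Finset.disjoint_iff_inter_eq_empty]
    exact hB l hl
  by_cases hall : ∀ p, p ∈ B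
  · have hBu : B = Finset.univ := Finset.eq_univ_iff_forall.mpr hall
    have hc : B.card = v := by rw [hBu, Finset.card_univ, Fintype.card_fin]
    exact ⟨by omega, fun h => by omega⟩
  · push Not at hall
    obtain ⟨p0, hp0⟩ := hall
    have hge : q + 1 ≤ B.card := by
      have h1 := blocking_sum v L huniq B p0 hp0
      have h2 : ∑ l ∈ L.filter (p0 ∈ ·), 1 ≤ ∑ l ∈ L.filter (p0 ∈ ·), (B ∩ l).card :=
        Finset.sum_le_sum (fun l hl => hone l (Finset.mem_filter.mp hl).1)
      rw [Finset.sum_const, smul_eq_mul, mul_one, blocking_aux q v hq L hline huniq hv2 p0] at h2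
      omega
    refine ⟨hge, fun heq => ?_⟩
    obtain ⟨x, hx, y, hy, hxy⟩ := Finset.one_lt_card.mp (by omega : 1 < B.card)
    obtain ⟨l, ⟨hl, hxl, hyl⟩, -⟩ := huniq x y hxy
    have hsub : l ⊆ B := by
      intro p hpl
      by_contra hp
      have h1 := blocking_sum v L huniq B p hp
      have h2 : ∑ l' ∈ L.filter (p ∈ ·), (1 + if l' = l then 1 else 0) ≤
          ∑ l' ∈ L.filter (p ∈ ·), (B ∩ l').card := by
        apply Finset.sum_le_sum
        intro l' hl'
        have hl'L := (Finset.mem_filter.mp hl').1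
        by_cases h : l' = l
        · rw [if_pos h, h]
          have : 1 < (B ∩ l).card := Finset.one_lt_card.mpr
            ⟨x, Finset.mem_inter.mpr ⟨hx, hxl⟩, y, Finset.mem_inter.mpr ⟨hy, hyl⟩, hxy⟩
          omega
        · rw [if_neg h]
          exact hone l' hl'L
      rw [Finset.sum_add_distrib, Finset.sum_const, smul_eq_mul, mul_one,
        blocking_aux q v hq L hline huniq hv2 p, Finset.sum_ite_eq' (L.filter (p ∈ ·)) l,
        if_pos (Finset.mem_filter.mpr ⟨hl, hpl⟩)] at h2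
      omega
    have : l = B := Finset.eq_of_subset_of_card_le hsub (by rw [heq, hline l hl])
    rw [← this]
    exact hl
end
end Pool.Agent.H383Kneser

namespace Pool.Agent.H383Kneser
section
/-- abstract count of maps with small total excess -/
theorem count_excess (m : ℕ) {β : Type} [Fintype β] [DecidableEq β] (ε : β → ℕ) (v N r : ℕ)
    (hv : (Finset.univ.filter (fun b => ε b = 0)).card ≤ v) (hN : Fintype.card β ≤ N) (hN1 : 1 ≤ N) :
    (Finset.univ.filter (fun f : Fin m → β => ∑ i, ε (f i) ≤ r)).card ≤ (v + 1) ^ m * N ^ r := by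
  classical
  have hNpos : (0 : ℝ) < N := by exact_mod_cast hN1
  have hNr1 : (1 : ℝ) ≤ N := by exact_mod_cast hN1
  have hN0 : (0 : ℝ) ≤ (N : ℝ)⁻¹ := by positivity
  have hN1' : (N : ℝ)⁻¹ ≤ 1 := inv_le_one_of_one_le₀ hNr1
  obtain ⟨w, hw⟩ : ∃ w : β → ℝ, w = fun b => if ε b = 0 then 1 else (N : ℝ)⁻¹ := ⟨_, rfl⟩
  have hw0 : ∀ b, 0 ≤ w b := by
    intro b
    rw [hw]
    simp only
    split_ifs
    · norm_num
    · exact hN0
  have hwε : ∀ b, ((N : ℝ)⁻¹) ^ (ε b) ≤ w b := by
    intro b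
    rw [hw]
    simp only
    split_ifs with h
    · rw [h, pow_zero]
    · calc ((N : ℝ)⁻¹) ^ (ε b) ≤ ((N : ℝ)⁻¹) ^ 1 :=
          pow_le_pow_of_le_one hN0 hN1' (by omega)
        _ = (N : ℝ)⁻¹ := pow_one _
  have hsum : ∑ b, w b ≤ (v : ℝ) + 1 := by
    have h1 : ∑ b, w b ≤ ∑ b, ((if ε b = 0 then (1 : ℝ) else 0) + (N : ℝ)⁻¹) := by
      apply Finset.sum_le_sum
      intro b _
      rw [hw]
      simp only
      split_ifs
      · linarith
      · linarith
    rw [Finset.sum_add_distrib, Finset.sum_boole, Finset.sum_const, Finset.card_univ,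
      nsmul_eq_mul] at h1
    have h2 : ((Finset.univ.filter (fun b => ε b = 0)).card : ℝ) ≤ v := by exact_mod_cast hv
    have h3 : (Fintype.card β : ℝ) * (N : ℝ)⁻¹ ≤ 1 := by
      rw [← div_eq_mul_inv, div_le_one hNpos]
      exact_mod_cast hN
    linarith
  have hsum0 : 0 ≤ ∑ b, w b := Finset.sum_nonneg (fun b _ => hw0 b)
  have hprod : ∀ f ∈ Finset.univ.filter (fun f : Fin m → β => ∑ i, ε (f i) ≤ r),
      ((N : ℝ)⁻¹) ^ r ≤ ∏ i, w (f i) := by
    intro f hf
    rw [Finset.mem_filter] at hf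
    calc ((N : ℝ)⁻¹) ^ r ≤ ((N : ℝ)⁻¹) ^ (∑ i, ε (f i)) := pow_le_pow_of_le_one hN0 hN1' hf.2
      _ = ∏ i, ((N : ℝ)⁻¹) ^ (ε (f i)) := (Finset.prod_pow_eq_pow_sum _ _ _).symm
      _ ≤ ∏ i, w (f i) := Finset.prod_le_prod (fun i _ => by positivity) (fun i _ => hwε _)
  have hkey : ((Finset.univ.filter (fun f : Fin m → β => ∑ i, ε (f i) ≤ r)).card : ℝ) *
      ((N : ℝ)⁻¹) ^ r ≤ ((v : ℝ) + 1) ^ m := by
    calc ((Finset.univ.filter (fun f : Fin m → β => ∑ i, ε (f i) ≤ r)).card : ℝ) *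
        ((N : ℝ)⁻¹) ^ r
        = ∑ f ∈ Finset.univ.filter (fun f : Fin m → β => ∑ i, ε (f i) ≤ r), ((N : ℝ)⁻¹) ^ r := by
          rw [Finset.sum_const, nsmul_eq_mul]
      _ ≤ ∑ f ∈ Finset.univ.filter (fun f : Fin m → β => ∑ i, ε (f i) ≤ r), ∏ i, w (f i) :=
          Finset.sum_le_sum hprod
      _ ≤ ∑ f : Fin m → β, ∏ i, w (f i) :=
          Finset.sum_le_sum_of_subset_of_nonneg (Finset.filter_subset _ _)
            (fun f _ _ => Finset.prod_nonneg (fun i _ => hw0 _))
      _ = (∑ b, w b) ^ m := (Fintype.sum_pow w m).symm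
      _ ≤ ((v : ℝ) + 1) ^ m := pow_le_pow_left₀ hsum0 hsum m
  have hfin : ((Finset.univ.filter (fun f : Fin m → β => ∑ i, ε (f i) ≤ r)).card : ℝ) ≤
      ((v : ℝ) + 1) ^ m * (N : ℝ) ^ r := by
    rw [inv_pow, ← div_eq_mul_inv, div_le_iff₀ (by positivity)] at hkey
    exact hkey
  exact_mod_cast hfin
end
end Pool.Agent.H383Kneser

namespace Pool.Agent.H383Kneser
section
/-- number of small subsets -/
theorem count_small (n r : ℕ) :
    (Finset.univ.filter (fun R : Finset (Fin n) => R.card ≤ r)).card ≤ (n + 1) ^ r := by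
  classical
  have h : (Finset.univ.filter (fun R : Finset (Fin n) => R.card ≤ r)) ⊆
      (Finset.univ : Finset (Fin r → Option (Fin n))).image
        (fun f => Finset.univ.filter (fun x => ∃ i, f i = some x)) := by
    intro R hR
    rw [Finset.mem_filter] at hR
    rw [Finset.mem_image]
    refine ⟨fun i => R.toList[(i : ℕ)]?, Finset.mem_univ _, ?_⟩
    ext x
    simp only [Finset.mem_filter, Finset.mem_univ, true_and]
    rw [← Finset.mem_toList, List.mem_iff_getElem?]
    constructor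
    · rintro ⟨i, hi⟩
      exact ⟨i, hi⟩
    · rintro ⟨i, hi⟩
      have h1 : i < R.toList.length := by
        rw [List.getElem?_eq_some_iff] at hi
        exact hi.1
      rw [Finset.length_toList] at h1
      exact ⟨⟨i, h1.trans_le hR.2⟩, hi⟩
  calc _ ≤ _ := Finset.card_le_card h
    _ ≤ _ := Finset.card_image_le
    _ = (n + 1) ^ r := by simp [Fintype.card_option]
end
end Pool.Agent.H383Kneser

namespace Pool.Agent.H383Kneser
section
open Finset
/-- S is determined by a choice of m blocks, its traces on them, and the rest. -/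
theorem count_main (n m q r v : ℕ) (𝔅 : Finset (Finset (Fin v))) (hB : ∀ B ∈ 𝔅, q + 1 ≤ B.card)
    (e : Fin (2 * m - 1) × Fin v ↪ Fin n) :
    ((powersetCard (m * (q + 1) + r) (univ : Finset (Fin n))).filter (fun S =>
        m ≤ (univ.filter (fun i : Fin (2 * m - 1) => (univ.filter (fun p : Fin v => e (i, p) ∈ S)) ∈ 𝔅)).card)).card
      ≤ (2 * m - 1).choose m *
        ((univ.filter (fun f : Fin m → 𝔅 => ∑ i, ((f i).1.card - (q + 1)) ≤ r)).card *
         (univ.filter (fun R : Finset (Fin n) => R.card ≤ r)).card) := by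
  classical
  set LHS := ((powersetCard (m * (q + 1) + r) (univ : Finset (Fin n))).filter (fun S =>
        m ≤ (univ.filter (fun i : Fin (2 * m - 1) => (univ.filter (fun p : Fin v => e (i, p) ∈ S)) ∈ 𝔅)).card)) with hL
  set F := (univ.filter (fun f : Fin m → 𝔅 => ∑ i, ((f i).1.card - (q + 1)) ≤ r)) with hF
  set RR := (univ.filter (fun R : Finset (Fin n) => R.card ≤ r)) with hRR
  let recon : Finset (Fin (2 * m - 1)) × ((Fin m → 𝔅) × Finset (Fin n)) → Finset (Fin n) :=
    fun t => t.2.2 ∪ (univ.filter fun x => ∃ (h : t.1.card = m) (j : Fin m) (p : Fin v),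
      p ∈ (t.2.1 j).1 ∧ e (t.1.orderEmbOfFin h j, p) = x)
  have hsub : LHS ⊆ ((powersetCard m (univ : Finset (Fin (2 * m - 1)))) ×ˢ (F ×ˢ RR)).image recon := by
    intro S hS
    rw [hL, mem_filter, mem_powersetCard] at hS
    obtain ⟨⟨-, hScard⟩, hSm⟩ := hS
    obtain ⟨I, hIJ, hIcard⟩ := Finset.exists_subset_card_eq hSm
    have hmem : ∀ j : Fin m, (univ.filter (fun p : Fin v => e (I.orderEmbOfFin hIcard j, p) ∈ S)) ∈ 𝔅 := by
      intro j
      have h1 : I.orderEmbOfFin hIcard j ∈ I := Finset.orderEmbOfFin_mem I hIcard j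
      have h2 := hIJ h1
      rw [mem_filter] at h2
      exact h2.2
    let f : Fin m → 𝔅 := fun j => ⟨univ.filter (fun p : Fin v => e (I.orderEmbOfFin hIcard j, p) ∈ S), hmem j⟩
    have hfval : ∀ j, (f j).1 = univ.filter (fun p : Fin v => e (I.orderEmbOfFin hIcard j, p) ∈ S) := fun j => rfl
    let R : Finset (Fin n) := S.filter (fun x => ¬ ∃ (j : Fin m) (p : Fin v), e (I.orderEmbOfFin hIcard j, p) = x)
    let T : Finset (Fin n) := S.filter (fun x => ∃ (j : Fin m) (p : Fin v), e (I.orderEmbOfFin hIcard j, p) = x)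
    have hTR : T.card + R.card = S.card := by
      exact Finset.card_filter_add_card_filter_not (s := S) (fun x => ∃ (j : Fin m) (p : Fin v), e (I.orderEmbOfFin hIcard j, p) = x)
    have hTeq : T = (univ : Finset (Fin m)).biUnion (fun j => (f j).1.image (fun p => e (I.orderEmbOfFin hIcard j, p))) := by
      ext x
      simp only [T, mem_filter, mem_biUnion, mem_univ, true_and, mem_image, hfval]
      constructor
      · rintro ⟨hx, j, p, hjp⟩
        exact ⟨j, p, by rw [hjp]; exact hx, hjp⟩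
      · rintro ⟨j, p, hp, hjp⟩
        exact ⟨hjp ▸ hp, j, p, hjp⟩
    have hTcard : T.card = ∑ j, (f j).1.card := by
      rw [hTeq, card_biUnion]
      · apply Finset.sum_congr rfl
        intro j _
        apply card_image_of_injective
        intro p p' hpp
        have := e.injective hpp
        exact (Prod.mk.inj this).2
      · intro j _ j' _ hjj
        rw [Function.onFun, Finset.disjoint_left]
        intro x hx hx'
        rw [mem_image] at hx hx'
        obtain ⟨p, _, hp⟩ := hx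
        obtain ⟨p', _, hp'⟩ := hx'
        have := e.injective (hp.trans hp'.symm)
        have h3 := (Prod.mk.inj this).1
        exact hjj ((I.orderEmbOfFin hIcard).injective h3)
    have hge : ∀ j, q + 1 ≤ (f j).1.card := fun j => hB _ (f j).2
    have hsplit : ∑ j, (f j).1.card = m * (q + 1) + ∑ j, ((f j).1.card - (q + 1)) := by
      have : ∀ j ∈ (univ : Finset (Fin m)), (f j).1.card = (q + 1) + ((f j).1.card - (q + 1)) := by
        intro j _
        have := hge j
        omega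
      rw [Finset.sum_congr rfl this, Finset.sum_add_distrib]
      simp
    have htot : ∑ j, ((f j).1.card - (q + 1)) + R.card = r := by
      rw [hTcard, hsplit, hScard] at hTR
      omega
    rw [mem_image]
    refine ⟨(I, (f, R)), ?_, ?_⟩
    · rw [mem_product, mem_product, mem_powersetCard, hF, hRR, mem_filter, mem_filter]
      refine ⟨⟨subset_univ _, hIcard⟩, ⟨mem_univ _, ?_⟩, ⟨mem_univ _, ?_⟩⟩
      · show ∑ i, ((f i).1.card - (q + 1)) ≤ r
        omega
      · show R.card ≤ r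
        omega
    · ext x
      simp only [recon, mem_union, mem_filter, mem_univ, true_and]
      constructor
      · rintro (hx | ⟨h, j, p, hp, hjp⟩)
        · exact (mem_filter.mp hx).1
        · rw [hfval, mem_filter] at hp
          rw [← hjp]
          exact hp.2
      · intro hx
        by_cases hc : ∃ (j : Fin m) (p : Fin v), e (I.orderEmbOfFin hIcard j, p) = x
        · right
          obtain ⟨j, p, hjp⟩ := hc
          refine ⟨hIcard, j, p, ?_, hjp⟩
          rw [hfval, mem_filter]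
          exact ⟨mem_univ _, hjp ▸ hx⟩
        · left
          exact mem_filter.mpr ⟨hx, hc⟩
  calc LHS.card ≤ (((powersetCard m (univ : Finset (Fin (2 * m - 1)))) ×ˢ (F ×ˢ RR)).image recon).card :=
        card_le_card hsub
    _ ≤ ((powersetCard m (univ : Finset (Fin (2 * m - 1)))) ×ˢ (F ×ˢ RR)).card := card_image_le
    _ = (2 * m - 1).choose m * (F.card * RR.card) := by
        rw [card_product, card_product, card_powersetCard, card_univ, Fintype.card_fin]
end
end Pool.Agent.H383Kneser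

namespace Pool.Agent.H383Kneser
section
open Finset
/-- The composition of the majority family on 2m-1 blocks with a plane in every block:
there is a maximal intersecting family all of whose members block at least m blocks. -/
theorem composition_family (n m q r v : ℕ) (hm : 1 ≤ m) (L : Finset (Finset (Fin v)))
    (hline : ∀ l ∈ L, l.card = q + 1) (hmeet : ∀ l ∈ L, ∀ l' ∈ L, ¬ Disjoint l l')
    (hext : ∀ 𝒜 : Set (Finset (Fin n)), (∀ A ∈ 𝒜, A.card ≤ m * (q + 1) + r) →
      (∀ A ∈ 𝒜, ∀ B ∈ 𝒜, ¬ Disjoint A B) →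
      ∃ M : Finset (Finset (Fin n)), (∀ A ∈ M, A.card = m * (q + 1) + r) ∧ (∀ A ∈ M, ∀ B ∈ M, ¬ Disjoint A B) ∧
      (∀ S : Finset (Fin n), S.card = m * (q + 1) + r → S ∉ M → ∃ A ∈ M, Disjoint S A) ∧
      (∀ S ∈ M, ∀ A ∈ 𝒜, ¬ Disjoint S A))
    (e : Fin (2 * m - 1) × Fin v ↪ Fin n) :
    ∃ M : Finset (Finset (Fin n)), (∀ A ∈ M, A.card = m * (q + 1) + r) ∧ (∀ A ∈ M, ∀ B ∈ M, ¬ Disjoint A B) ∧
      (∀ S : Finset (Fin n), S.card = m * (q + 1) + r → S ∉ M → ∃ A ∈ M, Disjoint S A) ∧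
      (∀ S ∈ M, m ≤ (univ.filter (fun i : Fin (2 * m - 1) =>
        ∀ l ∈ L, ¬ Disjoint (univ.filter (fun p : Fin v => e (i, p) ∈ S)) l)).card) := by
  obtain ⟨M, hM1, hM2, hM3, hM4⟩ := hext
    {A | ∃ (I : Finset (Fin (2 * m - 1))) (l : Fin (2 * m - 1) → Finset (Fin v)),
      I.card = m ∧ (∀ i, l i ∈ L) ∧ A = I.biUnion (fun i => (l i).image (fun p => e (i, p)))}
    (by
      rintro A ⟨I, l, hI, hl, rfl⟩
      have h1 : (I.biUnion (fun i => (l i).image (fun p => e (i, p)))).card ≤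
          ∑ i ∈ I, (q + 1) := by
        refine Finset.card_biUnion_le.trans (Finset.sum_le_sum fun i _ => ?_)
        refine Finset.card_image_le.trans ?_
        rw [hline _ (hl i)]
      rw [Finset.sum_const, hI, smul_eq_mul] at h1
      exact h1.trans (Nat.le_add_right _ _))
    (by
      rintro A ⟨I, l, hI, hl, rfl⟩ B ⟨I', l', hI', hl', rfl⟩
      have hcard : (univ : Finset (Fin (2 * m - 1))).card < I.card + I'.card := by
        rw [Finset.card_univ, Fintype.card_fin, hI, hI']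
        omega
      obtain ⟨i, hi⟩ := Finset.inter_nonempty_of_card_lt_card_add_card (Finset.subset_univ I)
        (Finset.subset_univ I') hcard
      obtain ⟨hi1, hi2⟩ := Finset.mem_inter.1 hi
      obtain ⟨p, hp1, hp2⟩ := Finset.not_disjoint_iff.1 (hmeet _ (hl i) _ (hl' i))
      rw [Finset.not_disjoint_iff]
      exact ⟨e (i, p), Finset.mem_biUnion.2 ⟨i, hi1, Finset.mem_image.2 ⟨p, hp1, rfl⟩⟩,
        Finset.mem_biUnion.2 ⟨i, hi2, Finset.mem_image.2 ⟨p, hp2, rfl⟩⟩⟩)
  refine ⟨M, hM1, hM2, hM3, ?_⟩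
  intro S hS
  by_contra hlt
  have hlt' := not_le.1 hlt
  have hcompl := Finset.card_filter_add_card_filter_not (s := (univ : Finset (Fin (2 * m - 1))))
    (fun i : Fin (2 * m - 1) =>
        ∀ l ∈ L, ¬ Disjoint (univ.filter (fun p : Fin v => e (i, p) ∈ S)) l)
  rw [Finset.card_univ, Fintype.card_fin] at hcompl
  obtain ⟨I, hI1, hI2⟩ := Finset.exists_subset_card_eq (s := univ.filter
    (fun i : Fin (2 * m - 1) =>
        ¬ ∀ l ∈ L, ¬ Disjoint (univ.filter (fun p : Fin v => e (i, p) ∈ S)) l)) (n := m) (by omega)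
  have hex : ∀ i ∈ I, ∃ l ∈ L, Disjoint (univ.filter (fun p : Fin v => e (i, p) ∈ S)) l := by
    intro i hi
    have h1 := (Finset.mem_filter.1 (hI1 hi)).2
    by_contra hcon
    apply h1
    intro l hl hd
    exact hcon ⟨l, hl, hd⟩
  have hIne : I.Nonempty := by
    rw [← Finset.card_pos, hI2]
    omega
  obtain ⟨i0, hi0⟩ := hIne
  obtain ⟨l0, hl0, _⟩ := hex i0 hi0
  classical
  have hch : ∀ i, ∃ l ∈ L, i ∈ I → Disjoint (univ.filter (fun p : Fin v => e (i, p) ∈ S)) l := by
    intro i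
    by_cases hi : i ∈ I
    · obtain ⟨l, hl, hd⟩ := hex i hi
      exact ⟨l, hl, fun _ => hd⟩
    · exact ⟨l0, hl0, fun h => absurd h hi⟩
  choose l hl hd using hch
  apply hM4 S hS (I.biUnion (fun i => (l i).image (fun p => e (i, p)))) ⟨I, l, hI2, hl, rfl⟩
  rw [Finset.disjoint_left]
  intro x hx hxA
  obtain ⟨i, hi, hxi⟩ := Finset.mem_biUnion.1 hxA
  obtain ⟨p, hp, rfl⟩ := Finset.mem_image.1 hxi
  exact Finset.disjoint_left.1 (hd i hi) (Finset.mem_filter.2 ⟨Finset.mem_univ _, hx⟩) hp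
end
end Pool.Agent.H383Kneser

namespace Pool.Agent.H383Kneser
section
open Finset
/-- the family of all k-subsets of the first 2k-1 points is a maximal intersecting family -/
theorem majority_family (n k : ℕ) (hk : 1 ≤ k) (h : 2 * k ≤ n) :
    ∃ M : Finset (Finset (Fin n)), M.card = (2 * k - 1).choose k ∧
      (∀ A ∈ M, A.card = k) ∧ (∀ A ∈ M, ∀ B ∈ M, ¬ Disjoint A B) ∧
      (∀ S : Finset (Fin n), S.card = k → S ∉ M → ∃ A ∈ M, Disjoint S A) := by
  classical
  set V : Finset (Fin n) := univ.filter (fun i : Fin n => i.1 < 2 * k - 1) with hV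
  have hVc : V.card = 2 * k - 1 := by
    rw [hV, Fin.card_filter_val_lt]
    omega
  refine ⟨powersetCard k V, ?_, ?_, ?_, ?_⟩
  · rw [card_powersetCard, hVc]
  · intro A hA
    exact (mem_powersetCard.1 hA).2
  · intro A hA B hB hd
    rw [mem_powersetCard] at hA hB
    have h1 : (A ∪ B).card ≤ V.card := card_le_card (union_subset hA.1 hB.1)
    rw [card_union_of_disjoint hd, hA.2, hB.2, hVc] at h1
    omega
  · intro S hS hSM
    have hns : ¬ S ⊆ V := fun hsub => hSM (mem_powersetCard.2 ⟨hsub, hS⟩)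
    have h1 : (S ∩ V).card < k := by
      rw [← hS]
      apply card_lt_card
      rw [ssubset_iff_subset_ne]
      refine ⟨inter_subset_left, fun he => hns ?_⟩
      rw [← he]; exact inter_subset_right
    have h2 : k ≤ (V \ S).card := by
      have h3 := card_sdiff_add_card_inter V S
      rw [inter_comm] at h3
      omega
    obtain ⟨A, hA1, hA2⟩ := exists_subset_card_eq h2
    refine ⟨A, mem_powersetCard.2 ⟨hA1.trans sdiff_subset, hA2⟩, ?_⟩
    exact (disjoint_sdiff (s := S) (t := V)).mono_right hA1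
end
end Pool.Agent.H383Kneser

namespace Pool.Agent.H383Kneser
section
/-- analytic conclusion -/
theorem log_bound (n k q m r : ℕ) (hk : 1 ≤ k) (hn8 : 8 * k ≤ n) (hn : n ^ 4 ≤ k ^ 5)
    (hq1 : n / (8 * k) < q) (hq2 : q ≤ 2 * (n / (8 * k)))
    (hkm : k = m * (q + 1) + r) (hr : r ≤ q) :
    Real.log (((2 * m - 1).choose m : ℝ) * ((((q ^ 2 + q + 1 : ℕ) : ℝ) + 1) ^ m * (2 ^ (q ^ 2 + q + 1)) ^ r * ((n : ℝ) + 1) ^ r))
      ≤ 20 * ((k : ℝ) ^ 2 / n) * Real.log ((n : ℝ) / k) := by
  have hkpos : (0 : ℝ) < k := by exact_mod_cast hk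
  have hnpos : 0 < n := by omega
  have hnr : (0 : ℝ) < n := by exact_mod_cast hnpos
  obtain ⟨c, hc⟩ : ∃ c : ℝ, c = (n : ℝ) / k := ⟨_, rfl⟩
  have hck : c * k = n := by rw [hc]; field_simp
  have hc8 : 8 ≤ c := by
    rw [hc, le_div_iff₀ hkpos]
    exact_mod_cast hn8
  have hcpos : 0 < c := by linarith
  have hc4 : c ^ 4 ≤ k := by
    have h1 : (n : ℝ) ^ 4 ≤ (k : ℝ) ^ 5 := by exact_mod_cast hn
    rw [← hck, mul_pow] at h1
    have h2 : c ^ 4 * (k : ℝ) ^ 4 ≤ k * (k : ℝ) ^ 4 := by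
      calc c ^ 4 * (k : ℝ) ^ 4 ≤ (k : ℝ) ^ 5 := h1
        _ = k * (k : ℝ) ^ 4 := by ring
    exact le_of_mul_le_mul_right h2 (by positivity)
  obtain ⟨T, hT⟩ : ∃ T : ℝ, T = (k : ℝ) / c := ⟨_, rfl⟩
  have hTpos : 0 < T := by rw [hT]; positivity
  have hTeq : (k : ℝ) ^ 2 / n = T := by
    rw [hT, ← hck]
    field_simp
  have hTc : T * c = k := by rw [hT]; field_simp
  have hqlow : c / 8 < q := by
    have h1 : n < q * (8 * k) := (Nat.div_lt_iff_lt_mul (by omega)).1 hq1
    have h2 : (n : ℝ) < q * (8 * k) := by exact_mod_cast h1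
    rw [← hck] at h2
    have h3 : c * k < (8 * q) * k := by linarith
    have h4 := lt_of_mul_lt_mul_right h3 hkpos.le
    linarith
  have hqup : (q : ℝ) ≤ c / 4 := by
    have h1 : n / (8 * k) * (8 * k) ≤ n := Nat.div_mul_le_self _ _
    have h2 : q * (4 * k) ≤ n := by
      calc q * (4 * k) ≤ 2 * (n / (8 * k)) * (4 * k) := Nat.mul_le_mul_right _ hq2
        _ = n / (8 * k) * (8 * k) := by ring
        _ ≤ n := h1
    have h3 : (q : ℝ) * (4 * k) ≤ n := by exact_mod_cast h2
    rw [← hck] at h3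
    have h4 : (4 * q) * (k : ℝ) ≤ c * k := by linarith
    have h5 := le_of_mul_le_mul_right h4 hkpos
    linarith
  have hq1r : (1 : ℝ) ≤ q := by linarith
  have hm0 : (0 : ℝ) ≤ m := Nat.cast_nonneg m
  have hr0 : (0 : ℝ) ≤ r := Nat.cast_nonneg r
  have hmq : (m : ℝ) * (q + 1) ≤ k := by
    have h1 : m * (q + 1) ≤ k := by omega
    exact_mod_cast h1
  have hmT : (m : ℝ) ≤ 8 * T := by
    have h1 : (m : ℝ) * c ≤ (8 * T) * c := by
      have h2 : (m : ℝ) * (c / 8) ≤ m * (q + 1) := mul_le_mul_of_nonneg_left (by linarith) hm0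
      have h3 : (8 * T) * c = 8 * k := by rw [mul_assoc, hTc]
      rw [h3]
      linarith
    exact le_of_mul_le_mul_right h1 hcpos
  have hrq : (r : ℝ) ≤ q := by exact_mod_cast hr
  -- sizes
  obtain ⟨v, hv⟩ : ∃ v : ℕ, v = q ^ 2 + q + 1 := ⟨_, rfl⟩
  have hvr : (v : ℝ) = (q : ℝ) ^ 2 + q + 1 := by rw [hv]; push_cast; ring
  rw [← hv, hTeq, ← hc]
  have hv1 : (v : ℝ) + 1 ≤ c ^ 2 / 4 := by
    rw [hvr]
    have h1 : (q : ℝ) + 1 ≤ c / 2 := by linarith
    have h2 : ((q : ℝ) + 1) ^ 2 ≤ (c / 2) ^ 2 := pow_le_pow_left₀ (by linarith) h1 2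
    nlinarith
  have hvpos : (0 : ℝ) ≤ v := Nat.cast_nonneg v
  have hlogc : 1 ≤ Real.log c := by
    rw [Real.le_log_iff_exp_le hcpos]
    linarith [Real.exp_one_lt_d9]
  have hlog2 : Real.log 2 ≤ 1 := by linarith [Real.log_two_lt_d9]
  have hlog2' : 0 ≤ Real.log 2 := Real.log_nonneg (by norm_num)
  -- first term
  have hchpos : 0 < (2 * m - 1).choose m := by
    apply Nat.choose_pos
    omega
  have hA : Real.log ((2 * m - 1).choose m : ℝ) ≤ m * Real.log 4 := by
    have h1 : (2 * m - 1).choose m ≤ 4 ^ m := by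
      calc (2 * m - 1).choose m ≤ 2 ^ (2 * m - 1) := Nat.choose_le_two_pow _ _
        _ ≤ 2 ^ (2 * m) := Nat.pow_le_pow_right (by norm_num) (by omega)
        _ = 4 ^ m := by rw [pow_mul]; norm_num
    have h2 : ((2 * m - 1).choose m : ℝ) ≤ 4 ^ m := by exact_mod_cast h1
    have h3 : (0 : ℝ) < ((2 * m - 1).choose m : ℝ) := by exact_mod_cast hchpos
    calc Real.log ((2 * m - 1).choose m : ℝ) ≤ Real.log ((4 : ℝ) ^ m) := Real.log_le_log h3 h2
      _ = m * Real.log 4 := Real.log_pow _ _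
  have h12 : (m : ℝ) * Real.log 4 + m * Real.log ((v : ℝ) + 1) ≤ 16 * T * Real.log c := by
    have h1 : Real.log 4 + Real.log ((v : ℝ) + 1) ≤ 2 * Real.log c := by
      rw [← Real.log_mul (by norm_num) (by positivity)]
      have h2 : (2 : ℝ) * Real.log c = Real.log (c ^ 2) := by
        rw [Real.log_pow]
        norm_num
      rw [h2]
      exact Real.log_le_log (by positivity) (by linarith)
    have h3 : (m : ℝ) * (Real.log 4 + Real.log ((v : ℝ) + 1)) ≤ m * (2 * Real.log c) :=
      mul_le_mul_of_nonneg_left h1 hm0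
    have h4 : (m : ℝ) * (2 * Real.log c) ≤ (8 * T) * (2 * Real.log c) :=
      mul_le_mul_of_nonneg_right hmT (by linarith)
    linarith
  -- third
  have h3' : (r : ℝ) * (v * Real.log 2) ≤ T := by
    have h1 : (v : ℝ) ≤ c ^ 2 / 4 := by linarith
    have h2 : (r : ℝ) ≤ c / 4 := by linarith
    have h3 : (r : ℝ) * v ≤ (c / 4) * (c ^ 2 / 4) := mul_le_mul h2 h1 hvpos (by positivity)
    have h4 : c ^ 3 ≤ T := by
      rw [hT, le_div_iff₀ hcpos]
      calc c ^ 3 * c = c ^ 4 := by ring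
        _ ≤ (k : ℝ) := hc4
    have h5 : (r : ℝ) * v * Real.log 2 ≤ (r : ℝ) * v * 1 :=
      mul_le_mul_of_nonneg_left hlog2 (by positivity)
    nlinarith
  -- fourth
  have h4' : (r : ℝ) * Real.log ((n : ℝ) + 1) ≤ 3 * T := by
    obtain ⟨sk, hsk⟩ : ∃ sk : ℝ, sk = Real.sqrt k := ⟨_, rfl⟩
    have hskpos : 0 < sk := by rw [hsk]; exact Real.sqrt_pos.2 hkpos
    have hsk2 : sk ^ 2 = k := by rw [hsk]; exact Real.sq_sqrt hkpos.le
    have hc2 : c ^ 2 ≤ sk := by
      rw [hsk]
      refine Real.le_sqrt_of_sq_le ?_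
      calc (c ^ 2) ^ 2 = c ^ 4 := by ring
        _ ≤ (k : ℝ) := hc4
    have hlogn : 4 * Real.log ((n : ℝ) + 1) ≤ 10 * sk := by
      have h1 : (4 : ℝ) * Real.log ((n : ℝ) + 1) = Real.log (((n : ℝ) + 1) ^ 4) := by
        rw [Real.log_pow]
        norm_num
      have h2 : ((n : ℝ) + 1) ^ 4 ≤ 16 * (k : ℝ) ^ 5 := by
        have h3 : (n : ℝ) + 1 ≤ 2 * n := by
          have : (1 : ℝ) ≤ n := by exact_mod_cast hnpos
          linarith
        have h4 : (n : ℝ) ^ 4 ≤ (k : ℝ) ^ 5 := by exact_mod_cast hn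
        calc ((n : ℝ) + 1) ^ 4 ≤ (2 * n) ^ 4 := pow_le_pow_left₀ (by positivity) h3 4
          _ = 16 * (n : ℝ) ^ 4 := by ring
          _ ≤ 16 * (k : ℝ) ^ 5 := by linarith
      have h5 : Real.log (16 * (k : ℝ) ^ 5) = 4 * Real.log 2 + 10 * Real.log sk := by
        have h6 : (16 : ℝ) * (k : ℝ) ^ 5 = 2 ^ 4 * sk ^ 10 := by
          rw [← hsk2]
          ring
        rw [h6, Real.log_mul (by positivity) (by positivity), Real.log_pow, Real.log_pow]
        norm_num
      have h7 := Real.log_le_sub_one_of_pos hskpos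
      have h8 := Real.log_two_lt_d9
      rw [h1]
      refine (Real.log_le_log (by positivity) h2).trans ?_
      rw [h5]
      linarith
    have h5 : (r : ℝ) ≤ c / 4 := by linarith
    have h6 : 0 ≤ Real.log ((n : ℝ) + 1) := Real.log_nonneg (by linarith)
    have h7 : (r : ℝ) * Real.log ((n : ℝ) + 1) ≤ (c / 4) * (10 / 4 * sk) :=
      mul_le_mul h5 (by linarith) h6 (by positivity)
    have h8 : (c / 4) * (10 / 4 * sk) ≤ 3 * T := by
      have h9 : (c / 4) * (10 / 4 * sk) * c ≤ 3 * T * c := by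
        have h10 : 3 * T * c = 3 * sk ^ 2 := by rw [mul_assoc, hTc, hsk2]
        rw [h10]
        nlinarith [mul_le_mul_of_nonneg_right hc2 hskpos.le]
      exact le_of_mul_le_mul_right h9 hcpos
    linarith
  have hApos : (0 : ℝ) < ((2 * m - 1).choose m : ℝ) := by exact_mod_cast hchpos
  have hB0 : (((v : ℕ) : ℝ) + 1) ^ m ≠ 0 := by positivity
  have hC0 : ((2 : ℝ) ^ v) ^ r ≠ 0 := by positivity
  have hD0 : ((n : ℝ) + 1) ^ r ≠ 0 := by positivity
  rw [Real.log_mul hApos.ne' (mul_ne_zero (mul_ne_zero hB0 hC0) hD0),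
    Real.log_mul (mul_ne_zero hB0 hC0) hD0, Real.log_mul hB0 hC0, Real.log_pow, Real.log_pow,
    Real.log_pow, Real.log_pow]
  have hTl : T ≤ T * Real.log c := by nlinarith
  nlinarith
end
end Pool.Agent.H383Kneser

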