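import Mathlib
import Pool.Agent.H383Kneser.Defs
import Pool.Agent.H383Kneser.Lemmas

open Finset

namespace Pool.Agent.H383Kneser

/-- a maximal family exists -/
theorem exists_isMaxIndep {n k : ℕ} (hk : 1 ≤ k) (h : 2 * k ≤ n) :
    ∃ F, IsMaxIndep n k F := by
  obtain ⟨M, -, h1, h2, h3⟩ := majority_family n k hk h
  exact ⟨M, h1, fun A hA B hB _ => h2 A hA B hB, h3⟩

theorem iMin_spec {n k : ℕ} (hk : 1 ≤ k) (h : 2 * k ≤ n) :
    ∃ F, IsMaxIndep n k F ∧ F.card = iMin n k := by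
  have hne : {N : ℕ | ∃ F : Finset (Finset (Fin n)), IsMaxIndep n k F ∧ F.card = N}.Nonempty := by
    obtain ⟨F, hF⟩ := exists_isMaxIndep hk h
    exact ⟨F.card, F, hF, rfl⟩
  exact Nat.sInf_mem hne

theorem iMin_le {n k : ℕ} {F : Finset (Finset (Fin n))} (hF : IsMaxIndep n k F) :
    iMin n k ≤ F.card := Nat.sInf_le ⟨F, hF, rfl⟩

/-- (1) -/
theorem lower_cover {n k : ℕ} (hk : 1 ≤ k) (h : 2 * k ≤ n) :
    n.choose k ≤ iMin n k * ((n - k).choose k + 1) := by
  obtain ⟨F, hF, hc⟩ := iMin_spec hk h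
  rw [← hc]
  exact cover_bound n k F hF.1 hF.2.2

theorem iMin_pos {n k : ℕ} (hk : 1 ≤ k) (h : 2 * k ≤ n) : 0 < iMin n k := by
  have h1 := lower_cover hk h
  have h2 : 0 < n.choose k := Nat.choose_pos (by omega)
  rcases Nat.eq_zero_or_pos (iMin n k) with h0 | h0
  · rw [h0] at h1; omega
  · exact h0

/-- (2) -/
theorem log_lower {n k : ℕ} (hk : 1 ≤ k) (h : 2 * k ≤ n) :
    (k : ℝ) ^ 2 / n - Real.log 2 ≤ Real.log (iMin n k) := by
  have h1 := lower_cover hk h
  have h2 := exp_choose_ratio n k hk h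
  have h3 : 1 ≤ (n - k).choose k := Nat.choose_pos (by omega)
  have h3' : (1 : ℝ) ≤ ((n - k).choose k : ℝ) := by exact_mod_cast h3
  have hpos := iMin_pos hk h
  have hpos' : (0 : ℝ) < iMin n k := by exact_mod_cast hpos
  have h1' : (n.choose k : ℝ) ≤ iMin n k * (((n - k).choose k : ℝ) + 1) := by exact_mod_cast h1
  have h4 : Real.exp ((k : ℝ) ^ 2 / n) * ((n - k).choose k : ℝ)
      ≤ (2 * iMin n k) * ((n - k).choose k : ℝ) := by
    nlinarith
  have h5 : Real.exp ((k : ℝ) ^ 2 / n) ≤ 2 * iMin n k :=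
    le_of_mul_le_mul_right h4 (by linarith)
  have h6 := Real.log_le_log (Real.exp_pos _) h5
  rw [Real.log_exp, Real.log_mul (by norm_num) (by positivity)] at h6
  linarith

/-- (3) -/
theorem upper_majority {n k : ℕ} (hk : 1 ≤ k) (h : 2 * k ≤ n) :
    iMin n k ≤ (2 * k - 1).choose k := by
  obtain ⟨M, h0, h1, h2, h3⟩ := majority_family n k hk h
  rw [← h0]
  exact iMin_le ⟨h1, fun A hA B hB _ => h2 A hA B hB, h3⟩

theorem exact_two_mul {k : ℕ} (hk : 1 ≤ k) : iMin (2 * k) k = (2 * k - 1).choose k := by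
  apply le_antisymm (upper_majority hk le_rfl)
  have h1 := lower_cover hk (le_refl (2 * k))
  have e1 : 2 * k - k = k := by omega
  rw [e1, Nat.choose_self] at h1
  obtain ⟨j, rfl⟩ : ∃ j, k = j + 1 := ⟨k - 1, by omega⟩
  have e2 : 2 * (j + 1) = (2 * j + 1) + 1 := by ring
  have e3 : 2 * (j + 1) - 1 = 2 * j + 1 := by omega
  have e4 : (2 * (j + 1)).choose (j + 1) = 2 * (2 * j + 1).choose (j + 1) := by
    have e5 := Nat.choose_symm_half j
    have e6 := Nat.choose_succ_succ (2 * j + 1) j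
    rw [e2, e6]
    have e7 : (2 * j + 1).choose j.succ = (2 * j + 1).choose (j + 1) := rfl
    omega
  rw [e3]
  omega

/-- the composition bound, general form -/
theorem upper_general {n m q r : ℕ} (hm : 1 ≤ m) (hq : q.Prime)
    (h : 2 * (m * (q + 1) + r) ≤ n) (hn : (2 * m - 1) * (q ^ 2 + q + 1) ≤ n) :
    ∃ L : Finset (Finset (Fin (q ^ 2 + q + 1))), L.card = q ^ 2 + q + 1 ∧
    (∀ B : Finset (Fin (q ^ 2 + q + 1)), (∀ l ∈ L, ¬ Disjoint B l) → q + 1 ≤ B.card ∧ (B.card = q + 1 → B ∈ L)) ∧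
    iMin n (m * (q + 1) + r) ≤ (2 * m - 1).choose m *
        ((univ.filter (fun f : Fin m → (univ.filter (fun B : Finset (Fin (q ^ 2 + q + 1)) => ∀ l ∈ L, ¬ Disjoint B l) : Finset (Finset (Fin (q ^ 2 + q + 1)))) =>
          ∑ i, ((f i).1.card - (q + 1)) ≤ r)).card *
         (univ.filter (fun R : Finset (Fin n) => R.card ≤ r)).card) := by
  obtain ⟨L, hLc, hline, hmeet, huniq⟩ := exists_plane q hq
  have hq2 := hq.two_le
  have hv : q + 2 ≤ q ^ 2 + q + 1 := by nlinarith
  have hblock : ∀ B : Finset (Fin (q ^ 2 + q + 1)), (∀ l ∈ L, ¬ Disjoint B l) →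
      q + 1 ≤ B.card ∧ (B.card = q + 1 → B ∈ L) := fun B hB =>
    blocking_bound q _ (by omega) hv L hline hmeet huniq rfl B hB
  refine ⟨L, hLc, hblock, ?_⟩
  have hcard : Fintype.card (Fin (2 * m - 1) × Fin (q ^ 2 + q + 1)) ≤ Fintype.card (Fin n) := by
    simpa [Fintype.card_prod] using hn
  obtain ⟨e⟩ := Function.Embedding.nonempty_of_card_le hcard
  have hk1 : 1 ≤ m * (q + 1) + r := by nlinarith
  obtain ⟨M, h1, h2, h3, h4⟩ := composition_family n m q r _ hm L hline hmeet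
    (fun 𝒜 ha hb => exists_max_family n _ hk1 h 𝒜 ha hb) e
  refine le_trans (iMin_le ⟨h1, fun A hA B hB _ => h2 A hA B hB, h3⟩) ?_
  refine le_trans (card_le_card ?_) (count_main n m q r _
    (univ.filter (fun B : Finset (Fin (q ^ 2 + q + 1)) => ∀ l ∈ L, ¬ Disjoint B l))
    (fun B hB => (hblock B (by simpa using hB)).1) e)
  intro S hS
  rw [mem_filter, mem_powersetCard]
  refine ⟨⟨subset_univ _, h1 S hS⟩, ?_⟩
  have := h4 S hS
  simpa using this

/-- (5) -/
theorem upper_exact {n m q : ℕ} (hm : 1 ≤ m) (hq : q.Prime) (hn : (2 * m - 1) * (q ^ 2 + q + 1) ≤ n) :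
    iMin n (m * (q + 1)) ≤ (2 * m - 1).choose m * (q ^ 2 + q + 1) ^ m := by
  have hq2 := hq.two_le
  have h : 2 * (m * (q + 1) + 0) ≤ n := by
    refine le_trans ?_ hn
    have a1 : m ≤ 2 * m - 1 := by omega
    have a2 : 2 * (q + 1) ≤ q ^ 2 + q + 1 := by nlinarith
    calc 2 * (m * (q + 1) + 0) = m * (2 * (q + 1)) := by ring
      _ ≤ (2 * m - 1) * (q ^ 2 + q + 1) := Nat.mul_le_mul a1 a2
  obtain ⟨L, hLc, hblock, hle⟩ := upper_general (r := 0) hm hq h hn
  simp only [add_zero] at hle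
  refine le_trans hle ?_
  apply Nat.mul_le_mul_left
  have e1 : (univ.filter (fun R : Finset (Fin n) => R.card ≤ 0)).card ≤ 1 := by
    have := count_small n 0
    simpa using this
  have e2 : (univ.filter (fun f : Fin m → (univ.filter (fun B : Finset (Fin (q ^ 2 + q + 1)) => ∀ l ∈ L, ¬ Disjoint B l) : Finset (Finset (Fin (q ^ 2 + q + 1)))) =>
          ∑ i, ((f i).1.card - (q + 1)) ≤ 0)).card ≤ (q ^ 2 + q + 1) ^ m := by
    have : (Fintype.piFinset (fun _ : Fin m => L)).card = (q ^ 2 + q + 1) ^ m := by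
      simp [hLc]
    refine le_trans (card_le_card_of_injOn (t := Fintype.piFinset (fun _ : Fin m => L)) (fun f i => (f i).1) ?_ ?_) this.le
    · intro f hf
      have hf' : ∑ i, ((f i).1.card - (q + 1)) ≤ 0 := by simpa using hf
      rw [Fintype.coe_piFinset]
      intro i _
      have h0 : (f i).1.card - (q + 1) = 0 := by
        have := Finset.single_le_sum (f := fun i => (f i).1.card - (q + 1)) (fun _ _ => Nat.zero_le _) (mem_univ i)
        omega
      have hb := hblock (f i).1 (mem_filter.mp (f i).2).2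
      exact hb.2 (by omega)
    · intro f _ g _ hfg
      funext i
      exact Subtype.ext (congrFun hfg i)
  calc _ ≤ (q ^ 2 + q + 1) ^ m * 1 := Nat.mul_le_mul e2 e1
    _ = _ := mul_one _

/-- the composition bound with explicit numbers -/
theorem upper_rem {n m q r : ℕ} (hm : 1 ≤ m) (hq : q.Prime)
    (h : 2 * (m * (q + 1) + r) ≤ n) (hn : (2 * m - 1) * (q ^ 2 + q + 1) ≤ n) :
    iMin n (m * (q + 1) + r) ≤ (2 * m - 1).choose m *
      (((q ^ 2 + q + 1) + 1) ^ m * (2 ^ (q ^ 2 + q + 1)) ^ r * (n + 1) ^ r) := by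
  obtain ⟨L, hLc, hblock, hle⟩ := upper_general (r := r) hm hq h hn
  refine le_trans hle ?_
  apply Nat.mul_le_mul_left
  apply Nat.mul_le_mul _ (count_small n r)
  apply count_excess m (fun b : (univ.filter (fun B : Finset (Fin (q ^ 2 + q + 1)) => ∀ l ∈ L, ¬ Disjoint B l) : Finset (Finset (Fin (q ^ 2 + q + 1)))) => b.1.card - (q + 1))
  · refine le_trans (card_le_card_of_injOn (t := L) (fun b => b.1) ?_ ?_) hLc.le
    · intro b hb
      have hb0 : b.1.card - (q + 1) = 0 := by simpa using hb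
      have hb1 := hblock b.1 (mem_filter.mp b.2).2
      exact hb1.2 (by omega)
    · intro a _ b _ hab
      exact Subtype.ext hab
  · rw [Fintype.card_coe]
    refine le_trans (card_le_univ _) ?_
    simp
  · exact Nat.one_le_two_pow

/-- (4) -/
theorem log_upper {n k : ℕ} (hk : 1 ≤ k) (h : 2 * k ≤ n) (hnk : n ^ 4 ≤ k ^ 5) :
    Real.log (iMin n k) ≤ 20 * ((k : ℝ) ^ 2 / n) * Real.log ((n : ℝ) / k) := by
  have hk0 : (0 : ℝ) < k := by exact_mod_cast hk
  have hn0 : (0 : ℝ) < n := by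
    have : 0 < n := by omega
    exact_mod_cast this
  have hpos' : (0 : ℝ) < iMin n k := by exact_mod_cast iMin_pos hk h
  by_cases h8 : 8 * k ≤ n
  · have hN : 1 ≤ n / (8 * k) := (Nat.one_le_div_iff (by omega)).mpr h8
    obtain ⟨q, hq, hq1, hq2⟩ := Nat.exists_prime_lt_and_le_two_mul (n / (8 * k)) (by omega)
    have hdiv : k = (k / (q + 1)) * (q + 1) + k % (q + 1) := by
      have := Nat.div_add_mod k (q + 1)
      rw [mul_comm] at this
      exact this.symm
    have hr : k % (q + 1) ≤ q := by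
      have := Nat.mod_lt k (show 0 < q + 1 by omega)
      omega
    have hqk : q + 1 ≤ n / (2 * k) := by
      rw [Nat.le_div_iff_mul_le (by omega)]
      have a1 : n / (8 * k) * (8 * k) ≤ n := Nat.div_mul_le_self n (8 * k)
      nlinarith
    have hmul : (q + 1) * (2 * k) ≤ n := (Nat.le_div_iff_mul_le (by omega)).mp hqk
    have hm : 1 ≤ k / (q + 1) := by
      rw [Nat.one_le_div_iff (by omega)]
      by_contra hcon
      push Not at hcon
      have b1 : 2 * k * k ≤ n := by nlinarith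
      have b2 : (2 * k * k) ^ 4 ≤ k ^ 5 := le_trans (Nat.pow_le_pow_left b1 4) hnk
      have b3 : k ^ 5 ≤ k ^ 8 := Nat.pow_le_pow_right (by omega) (by norm_num)
      have b4 : (2 * k * k) ^ 4 = 16 * k ^ 8 := by ring
      have b5 : 0 < k ^ 8 := by positivity
      omega
    set m := k / (q + 1) with hmdef
    set r := k % (q + 1) with hrdef
    have hn2 : (2 * m - 1) * (q ^ 2 + q + 1) ≤ n := by
      have c1 : m * (q + 1) ≤ k := Nat.div_mul_le_self k (q + 1)
      have c2 : q ^ 2 + q + 1 ≤ (q + 1) * (q + 1) := by nlinarith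
      calc (2 * m - 1) * (q ^ 2 + q + 1) ≤ (2 * m) * ((q + 1) * (q + 1)) :=
            Nat.mul_le_mul (by omega) c2
        _ = (q + 1) * (2 * (m * (q + 1))) := by ring
        _ ≤ (q + 1) * (2 * k) := Nat.mul_le_mul_left _ (by omega)
        _ ≤ n := hmul
    have hup := upper_rem (r := r) hm hq (by rw [← hdiv]; exact h) hn2
    rw [← hdiv] at hup
    have hup' : (iMin n k : ℝ) ≤ ((2 * m - 1).choose m : ℝ) * ((((q ^ 2 + q + 1 : ℕ) : ℝ) + 1) ^ m * (2 ^ (q ^ 2 + q + 1)) ^ r * ((n : ℝ) + 1) ^ r) := by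
      exact_mod_cast hup
    exact le_trans (Real.log_le_log hpos' hup')
      (log_bound n k q m r hk h8 hnk hq1 hq2 hdiv hr)
  · push Not at h8
    have hup := upper_majority hk h
    have h1 : (2 * k - 1).choose k ≤ 2 ^ (2 * k) :=
      le_trans (Nat.choose_le_two_pow _ _) (Nat.pow_le_pow_right (by norm_num) (by omega))
    have h2 : (iMin n k : ℝ) ≤ 2 ^ (2 * k) := by exact_mod_cast le_trans hup h1
    have h3 := Real.log_le_log hpos' h2
    rw [Real.log_pow] at h3
    have hl2 : 0 < Real.log 2 := Real.log_pos (by norm_num)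
    have hc : (2 : ℝ) ≤ (n : ℝ) / k := by
      rw [le_div_iff₀ hk0]
      exact_mod_cast h
    have h4 : Real.log 2 ≤ Real.log ((n : ℝ) / k) := Real.log_le_log (by norm_num) hc
    have h5 : (k : ℝ) / 8 ≤ (k : ℝ) ^ 2 / n := by
      rw [div_le_div_iff₀ (by norm_num) hn0]
      have : (n : ℝ) ≤ 8 * k := by exact_mod_cast h8.le
      nlinarith
    have h6 : (k : ℝ) / 8 * Real.log 2 ≤ (k : ℝ) ^ 2 / n * Real.log ((n : ℝ) / k) :=
      mul_le_mul h5 h4 hl2.le (by positivity)
    push_cast at h3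
    nlinarith

/-- (6) -/
theorem odd_lower {k : ℕ} (hk : 1 ≤ k) : (2 * k + 1).choose k ≤ iMin (2 * k + 1) k * (k + 2) := by
  have h := lower_cover (n := 2 * k + 1) hk (by omega)
  have e1 : 2 * k + 1 - k = k + 1 := by omega
  rw [e1, Nat.choose_succ_self_right] at h
  exact h

theorem exact_seven_three : iMin 7 3 = 7 := by
  apply le_antisymm
  · have := upper_exact (n := 7) (m := 1) (q := 2) le_rfl Nat.prime_two (by norm_num)
    simpa using this
  · have := odd_lower (k := 3) (by norm_num)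
    have e : (2 * 3 + 1).choose 3 = 35 := by decide
    rw [e] at this
    norm_num at this
    omega

end Pool.Agent.H383Kneser
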